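import Pool.Agent.H57.AR.Targets
import Pool.Agent.H44.SO.Basic

/-!
# All reducts, all arities: canonical maps give behaviours
-/

set_option autoImplicit false
set_option linter.unusedVariables false

namespace Pool.Agent.H26.AR

open Pool.Agent.H68.BP Pool.Agent.H58.SF Pool.Agent.H53.GC Pool.Agent.H53.NR Pool.Agent.H53.GR
open Pool.Agent.H57.SO (Pal Col vt Bh)
open Pool.Agent.H44.SO (vt_of)
open Pool.Agent.H57.EQ (Cx)
open Pool.Agent.H57.AR
open Function

section

variable {V S X : Type} {σ ρ : Sig} {P : Pal S X} {𝔹 : Str ρ V} {c : V → V → S ⊕ X}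

theorem c_of_tp (hl : Lnk P 𝔹 c) {W : Type} {x y : W → V} (h : tp 𝔹 x = tp 𝔹 y) (u w : W) :
    c (x u) (x w) = c (y u) (y w) := by
  rw [hl.eq]
  refine ⟨?_, fun l f => ?_⟩
  · have h1 := congrFun (congrFun (congrArg Prod.fst h) u) w
    exact iff_of_eq h1
  · have h1 := congrFun (congrFun (congrArg Prod.snd h) l) (fun i => if f i then w else u)
    have e1 : ∀ x : W → V, (fun i => if f i then x w else x u) =
        fun i => x (if f i then w else u) := fun x => by
      funext i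
      split_ifs <;> rfl
    rw [e1 x, e1 y]
    exact iff_of_eq h1

/-- the coordinate of an entry of a pair of blocks -/
def idx {I : Type} : I ⊕ I → I := Sum.elim id id

theorem elim_idx {I : Type} (v : I → V) (s : I ⊕ I) : Sum.elim v v s = v (idx s) := by
  rcases s with i | i <;> rfl

variable [LinearOrder V]

theorem rel_aux (har : ∀ l, 1 ≤ ρ.ar l) (hl : Lnk P 𝔹 c) {I : Type} {rk : I → ℕ} {v z : I → V}
    (hv : GenR 𝔹 rk v v) (ht : ∀ i, vt P c (v i) = vt P c (z i)) (l : Fin ρ.m)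
    (s : Fin (ρ.ar l) → I ⊕ I) (h : 𝔹 l (fun k => Sum.elim v v (s k))) :
    𝔹 l (fun k => Sum.elim z z (s k)) := by
  have e1 : (fun k => Sum.elim v v (s k)) = fun k => v (idx (s k)) := funext fun k => elim_idx v _
  have e2 : (fun k => Sum.elim z z (s k)) = fun k => z (idx (s k)) := funext fun k => elim_idx z _
  rw [e1] at h
  rw [e2]
  have h2 := hv.2 l (fun k => (idx (s k), false)) h
  have k0 : Fin (ρ.ar l) := ⟨0, har l⟩
  have h3 : ∀ k, idx (s k) = idx (s k0) := fun k => h2 k k0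
  have e3 : ∀ x : I → V, (fun k => x (idx (s k))) = fun _ => x (idx (s k0)) := fun x =>
    funext fun k => by rw [h3 k]
  rw [e3] at h ⊢
  have h4 : c (v (idx (s k0))) (v (idx (s k0))) = c (z (idx (s k0))) (z (idx (s k0))) := by
    rw [Pool.Agent.H44.SO.Col.vt hl.col, Pool.Agent.H44.SO.Col.vt hl.col, ht]
  rw [hl.eq] at h4
  have h5 := h4.2 l (fun _ => true)
  simp only [if_true] at h5
  exact h5.1 h

theorem diag_same (har : ∀ l, 1 ≤ ρ.ar l) (hl : Lnk P 𝔹 c) {I : Type} {rk : I → ℕ}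
    (hrk : Injective rk) {v z : I → V} (hv : GenR 𝔹 rk v v) (hz : GenR 𝔹 rk z z)
    (ht : ∀ i, vt P c (v i) = vt P c (z i)) : SameTp 𝔹 (Sum.elim v v) (Sum.elim z z) := by
  refine ⟨fun a b => ?_, ?_⟩
  · rw [elim_idx, elim_idx, elim_idx, elim_idx]
    by_cases hab : idx a = idx b
    · rw [hab]
      exact ⟨fun h => absurd h (lt_irrefl _), fun h => absurd h (lt_irrefl _)⟩
    · rcases lt_or_gt_of_ne (fun h => hab (hrk h) : rk (idx a) ≠ rk (idx b)) with h | h
      · exact ⟨fun _ => hz.1 _ _ false false h, fun _ => hv.1 _ _ false false h⟩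
      · have h1 : v (idx b) < v (idx a) := hv.1 _ _ false false h
        have h2 : z (idx b) < z (idx a) := hz.1 _ _ false false h
        exact ⟨fun h3 => absurd h1 (not_lt.2 h3.le), fun h3 => absurd h2 (not_lt.2 h3.le)⟩
  · funext l s
    exact propext ⟨fun h => rel_aux har hl hv ht l s h,
      fun h => rel_aux har hl hz (fun i => (ht i).symm) l s h⟩

theorem gen_of_zon {I W : Type} {rk : I → ℕ} {G : I → W → V} (h : ZonR 𝔹 rk G) (u w : W) :
    GenR 𝔹 rk (fun i => G i u) (fun i => G i w) := by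
  have e : (fun (i : I) (b : Bool) => cond b (G i w) (G i u)) =
      fun i b => G i (cond b w u) := by
    funext i b
    cases b <;> rfl
  unfold GenR
  rw [e]
  exact ⟨fun i j a b hij => h.1 i j _ _ hij,
    fun l z hz => h.2 l (fun k => ((z k).1, cond (z k).2 w u)) hz⟩

end

theorem pf_BHHR (hG : T_GENR) (hT : T_TAMR) : T_BHHR := by
  intro σ ρ V S X _ P 𝔸 𝔹 M c hs I _ rk hrk H hH
  have hl := hs.lnk
  have hc := hl.col
  have har : ∀ l, 1 ≤ ρ.ar l := fun l => (hs.base.ar l).1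
  -- generic blocks
  have hz : ∀ t : I → S, ∃ z : I → V, GenR 𝔹 rk z z ∧ (∀ i, vt P c (z i) = t i) := by
    intro t
    choose g hg using fun s => hc.surS s
    obtain ⟨G', h1, h2⟩ := hG σ ρ V S X P 𝔸 𝔹 M c hs I Unit rk hrk (fun i _ => g (t i))
    refine ⟨fun i => G' i (), gen_of_zon h2 () (), fun i => ?_⟩
    apply vt_of
    rw [c_of_tp hl (h1 i).1 () ()]
    exact hg _
  have hinl : ∀ z : I → V, ∃ s, H z z = Sum.inl s := by
    intro z
    obtain ⟨ψ, _, h2⟩ := hH.comb Unit (fun i _ => z i)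
    refine ⟨vt P c (ψ ()), ?_⟩
    have h3 := h2 () ()
    rw [← h3]
    exact Pool.Agent.H44.SO.Col.vt hc _
  choose zt hzt1 hzt2 using hz
  choose sH hsH using hinl
  refine ⟨fun t => sH (zt t), fun t t' A => ∃ z z' : I → V, GenR 𝔹 rk z z' ∧
    (∀ i, vt P c (z i) = t i) ∧ (∀ i, vt P c (z' i) = t' i) ∧ (∀ i, z i = z' i ↔ i ∈ A) ∧
    ∃ s, H z z' = Sum.inl s, ?_, fun t => ⟨zt t, hzt1 t, hzt2 t, hsH _⟩, fun t t' A h => h⟩
  intro W _ G
  obtain ⟨G', h1, h2⟩ := hG σ ρ V S X P 𝔸 𝔹 M c hs I W rk hrk G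
  obtain ⟨ψ, hψ1, hψ2⟩ := hH.comb W G'
  have hcc : ∀ i u w, c (G' i u) (G' i w) = c (G i u) (G i w) := fun i u w =>
    c_of_tp hl (h1 i).1 u w
  have hty : ∀ i w, vt P c (G' i w) = vt P c (G i w) := by
    intro i w
    apply vt_of
    rw [hcc i w w]
    exact Pool.Agent.H44.SO.Col.vt hc _
  refine ⟨ψ, fun l z hz => ?_, fun w => ?_, fun u w => ?_⟩
  · refine hψ1 l z fun i => hs.base.tyi l (fun a => G i (z a)) (fun a => G' i (z a)) (hz i) ?_
    have h3 := (h1 i).1
    refine Prod.ext ?_ ?_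
    · funext a b
      exact congrFun (congrFun (congrArg Prod.fst h3) (z a)) (z b)
    · funext l' s
      exact congrFun (congrFun (congrArg Prod.snd h3) l') (fun k => z (s k))
  · apply vt_of
    rw [hψ2 w w]
    have hsame := diag_same har hl hrk (gen_of_zon h2 w w) (hzt1 fun i => vt P c (G i w))
      (fun i => by rw [hzt2]; exact hty i w)
    rw [hH.tinv _ _ _ _ hsame]
    exact hsH _
  · have hgen : GenR 𝔹 rk (fun i => G' i u) (fun i => G' i w) := gen_of_zon h2 u w
    have heq : ∀ i, G' i u = G' i w ↔ G i u = G i w := fun i =>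
      Pool.Agent.H44.SO.Col.eq_iff' hc (hcc i u w)
    rw [← hc.eq_iff (ψ u) (ψ w), hψ2 u w]
    constructor
    · intro h3
      exact ⟨_, _, hgen, fun i => hty i u, fun i => hty i w, fun i => heq i, h3⟩
    · rintro ⟨z, z', h3, h4, h5, h6, h7⟩
      refine hT σ ρ V S X P 𝔸 𝔹 M c hs I rk hrk H hH z z' _ _ h3 hgen
        (fun i => ?_) (fun i => ?_) (fun i => ?_) h7
      · rw [h4]
        exact hty i u
      · rw [h5]
        exact hty i w
      · rw [h6]
        exact heq i

end Pool.Agent.H26.AR
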